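import Pool.Agent.helper17.HH.SpecR

set_option autoImplicit false

open scoped Pointwise

namespace Pool.Agent.HH

theorem RDN_ind {Q : Set ℝ} {ρ : ℝ} (hρ : 0 < ρ) (h0 : (0 : ℝ) ∈ Q)
    (h : ∀ x ∈ Q, (∃ y ∈ Q, |y - x / 2| ≤ ρ) ∧ ∃ y ∈ Q, |y - (x + 1) / 2| ≤ ρ) (n : ℕ) :
    ∀ t ∈ Set.Icc (0 : ℝ) 1, ∃ x ∈ Q, |x - t| ≤ (1 / 2) ^ n + 2 * ρ := by
  induction n with
  | zero =>
    intro t ht
    refine ⟨0, h0, ?_⟩
    rw [abs_le, pow_zero]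
    constructor <;> linarith [ht.1, ht.2]
  | succ n ih =>
    intro t ht
    rcases le_total t (1 / 2) with hlt | hlt
    · obtain ⟨x, hx, hxt⟩ := ih (2 * t) ⟨by linarith [ht.1], by linarith⟩
      obtain ⟨y, hy, hyx⟩ := (h x hx).1
      refine ⟨y, hy, ?_⟩
      rw [abs_le] at hxt hyx ⊢
      rw [pow_succ]
      constructor <;> linarith [hxt.1, hxt.2, hyx.1, hyx.2]
    · obtain ⟨x, hx, hxt⟩ := ih (2 * t - 1) ⟨by linarith, by linarith [ht.2]⟩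
      obtain ⟨y, hy, hyx⟩ := (h x hx).2
      refine ⟨y, hy, ?_⟩
      rw [abs_le] at hxt hyx ⊢
      rw [pow_succ]
      constructor <;> linarith [hxt.1, hxt.2, hyx.1, hyx.2]

/-- **Row RDN** -/
theorem RDN_proof : RDN_stmt := by
  intro Q ρ hρ _ h0 h t ht
  obtain ⟨n, hn⟩ := exists_pow_lt_of_lt_one hρ (by norm_num : (1 / 2 : ℝ) < 1)
  obtain ⟨x, hx, hxt⟩ := RDN_ind hρ h0 h n t ht
  exact ⟨x, hx, by linarith⟩

end Pool.Agent.HH
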